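import Pool.Agent.L7h60.FD.Exf

/-!
# Project FD (helper19; MP_157626_nt): the expansion `S_EXD`
-/

set_option autoImplicit false
set_option linter.all false

namespace Pool.Agent.L7h56.FD

open Finset Polynomial Pool.Agent.W262.RK Pool.Agent.W108.RK Pool.Agent.W762.RK2 Pool.Agent.L7h19.RP
  Pool.Agent.L7h65.IS Pool.Agent.L7h65.IT
open Pool.Agent.L7h56.IK (Ve z2 chi)
open Pool.Agent.L7h19.FD hiding nb
open Pool.Agent.L7h60.FD (pt mc_Dl cl_Dl nb_pt Q0_Dl WE_Dl sum_pw3 sn_sq ph_add zb_not sn_add)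
open Pool.Agent.L7h19.RP.AT (gm)
open Pool.Agent.L7h19.RH (Q0)

variable {J : Type} [Fintype J] [DecidableEq J] {z y k : ℕ}

/-- the marks of a prime -/
abbrev VM (k : ℕ) : Type := Fin k → V2

/-- the two marks of a prime -/
abbrev Mr (k : ℕ) : Type := VM k × VM k

/-- the line of the class -/
def Lo (cls : J → Fin 4) (o : Option J) (v : V2) : Prop := o.elim (v = 0) fun j => Ln (cls j) v

instance (cls : J → Fin 4) (o : Option J) (v : V2) : Decidable (Lo cls o v) := by
  unfold Lo
  cases o <;> simp only [Option.elim] <;> infer_instance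

lemma Ln_zero (c : Fin 4) : Ln c 0 := Or.inr (Or.inl rfl)

lemma Lo_zero (cls : J → Fin 4) (o : Option J) : Lo cls o 0 := by
  cases o with
  | none => rfl
  | some j => exact Ln_zero _

/-- the pair of divisors -/
noncomputable def dN (w : Pr z y → V2) : ℕ × ℕ :=
  (nb fun p => decide ((w p).1 ≠ 0), nb fun p => decide ((w p).2 ≠ 0))

lemma dvz (a : Pr z y → ZMod 2) (p : Pr z y) :
    (if (p : ℕ) ∣ nb (fun p => decide (a p ≠ 0)) then (1 : ZMod 2) else 0) = a p := by
  by_cases h : a p = 0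
  · rw [if_neg, h]
    rw [dvd_nb]
    simp [h]
  · rw [if_pos, z2 _ h]
    rw [dvd_nb]
    simp [h]

lemma dV_dN (w : Pr z y → V2) (p : Pr z y) : dV (dN w) p = w p :=
  Prod.ext (dvz (fun p => (w p).1) p) (dvz (fun p => (w p).2) p)

lemma Mt_Dl (cls : J → Fin 4) (ξ : Pr z y → Option J) :
    Mt (mc cls (Dl ξ)) = nb fun p => (ξ p).isSome := by
  have h1 : Mt (mc cls (Dl ξ)) = ∏ j, Dl ξ j := by
    unfold Mt mc
    exact Finset.prod_fiberwise univ cls (Dl ξ)
  rw [h1, prod_Dl]

lemma nb_of_dvd (a : Pr z y → Bool) (n : ℕ) (h : n ∣ nb a) :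
    nb (fun p : Pr z y => decide ((if (p : ℕ) ∣ n then (1 : ZMod 2) else 0) ≠ 0)) = n := by
  have h1 : (fun p : Pr z y => decide ((if (p : ℕ) ∣ n then (1 : ZMod 2) else 0) ≠ 0)) =
      fun p : Pr z y => decide ((p : ℕ) ∣ n) := by
    funext p
    by_cases h : (p : ℕ) ∣ n
    · simp [h]
    · simp [h]
  rw [h1]
  exact nb_eq (h.trans (nb_dvd_PP a))

lemma dN_dV (a : Pr z y → Bool) (x : ℕ × ℕ) (h1 : x.1 ∣ nb a) (h2 : x.2 ∣ nb a) :
    dN (fun p : Pr z y => dV x p) = x :=
  Prod.ext (nb_of_dvd a x.1 h1) (nb_of_dvd a x.2 h2)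

lemma mem_Kd (cls : J → Fin 4) (ξ : Pr z y → Option J) (x : ℕ × ℕ) :
    x ∈ Kd (mc cls (Dl ξ)) ↔ x.1 ∣ (nb fun p => (ξ p).isSome) ∧ x.2 ∣ (nb fun p => (ξ p).isSome) ∧
      ∀ p : Pr z y, Lo cls (ξ p) (dV x p) := by
  unfold Kd
  rw [Mt_Dl, mem_filter, mem_product, Nat.mem_divisors, Nat.mem_divisors, nb_pf]
  constructor
  · rintro ⟨⟨⟨h1, -⟩, h2, -⟩, h3⟩
    refine ⟨h1, h2, fun p => ?_⟩
    cases hp : ξ p with
    | none =>
      have e : ∀ n : ℕ, n ∣ (nb fun p => (ξ p).isSome) → ¬ (p : ℕ) ∣ n := by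
        intro n hn hpn
        have := dvd_of_dvd_nb hn hpn
        rw [hp] at this
        exact absurd this (by simp)
      show dV x p = 0
      unfold dV
      rw [if_neg (e _ h1), if_neg (e _ h2)]
      rfl
    | some j =>
      have h4 := h3 p ((mem_Ts _ p).2 (by rw [hp]; rfl))
      rw [cl_Dl cls ξ p j hp] at h4
      exact h4
  · rintro ⟨h1, h2, h3⟩
    refine ⟨⟨⟨h1, nb_ne_zero _⟩, h2, nb_ne_zero _⟩, fun q hq => ?_⟩
    unfold Ts at hq
    rw [Finset.mem_map] at hq
    obtain ⟨p, hp, hpq⟩ := hq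
    have hp' := (mem_filter.1 hp).2
    obtain ⟨j, hj⟩ := Option.isSome_iff_exists.1 hp'
    have h4 : (p : ℕ) = q := hpq
    rw [← h4, cl_Dl cls ξ p j hj]
    have h5 := h3 p
    rw [hj] at h5
    exact h5

/-- sums over tuples of elements of `Kd` -/
lemma sum_Kd (cls : J → Fin 4) (ξ : Pr z y → Option J) (G : (Fin k → ℕ × ℕ) → ℝ) :
    ∑ d ∈ Fintype.piFinset (fun _ : Fin k => Kd (mc cls (Dl ξ))), G d =
      ∑ v : Pr z y → VM k, if ∀ p i, Lo cls (ξ p) (v p i) then
        G (fun i => dN fun p => v p i) else 0 := by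
  rw [← Finset.sum_filter]
  refine Finset.sum_nbij' (fun d => fun p i => dV (d i) p) (fun v => fun i => dN fun p => v p i)
    ?_ ?_ ?_ ?_ ?_
  · intro d hd
    rw [Fintype.mem_piFinset] at hd
    rw [mem_filter]
    exact ⟨mem_univ _, fun p i => ((mem_Kd cls ξ _).1 (hd i)).2.2 p⟩
  · intro v hv
    rw [Fintype.mem_piFinset]
    intro i
    have h := (mem_filter.1 hv).2
    have h0 : ∀ p, v p i ≠ 0 → (ξ p).isSome = true := by
      intro p hp
      cases hx : ξ p with
      | none =>
        exfalso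
        have := h p i
        rw [hx] at this
        exact hp this
      | some j => rfl
    rw [mem_Kd]
    refine ⟨nb_dvd fun p hp => ?_, nb_dvd fun p hp => ?_, fun p => ?_⟩
    · refine h0 p fun h1 => ?_
      have h2 := of_decide_eq_true hp
      beta_reduce at h2
      rw [h1] at h2
      exact h2 rfl
    · refine h0 p fun h1 => ?_
      have h2 := of_decide_eq_true hp
      beta_reduce at h2
      rw [h1] at h2
      exact h2 rfl
    · rw [dV_dN]
      exact h p i
  · intro d hd
    rw [Fintype.mem_piFinset] at hd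
    funext i
    have h := (mem_Kd cls ξ _).1 (hd i)
    exact dN_dV _ _ h.1 h.2.1
  · intro v _
    funext p i
    exact dV_dN _ p
  · intro d hd
    rw [Fintype.mem_piFinset] at hd
    congr 1
    funext i
    have h := (mem_Kd cls ξ _).1 (hd i)
    exact (dN_dV _ _ h.1 h.2.1).symm

lemma chi' (S : ℝ) (hS : S * S = 1) (f : Fin k → ZMod 2) :
    ∏ i, (if f i = 0 then 1 else S) = if ∑ i, f i ≠ 0 then S else 1 := by
  have h := chi S hS f (fun _ => 1)
  have h10 : (1 : ZMod 2) ≠ 0 := by decide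
  simp only [ne_eq, h10, not_false_eq_true, if_true] at h
  have h2 : (f ⬝ᵥ fun _ => (1 : ZMod 2)) = ∑ i, f i := by
    unfold dotProduct
    exact Finset.sum_congr rfl fun i _ => mul_one _
  rw [h2] at h
  simp only [ne_eq]
  refine Eq.trans ?_ h
  refine Finset.prod_congr rfl fun i _ => ?_
  by_cases h3 : f i = 0
  · simp [h3]
  · simp [h3]

lemma om2_z1 (v : V2) : om2 v 0 = 0 := by unfold om2; simp

lemma om2_z2 (v : V2) : om2 0 v = 0 := by unfold om2; simp

lemma dg_z1 (c : Fin 4) (n : Fin 3 → ZMod 2) (ε : ZMod 2) (v : V2) : dg c n ε v 0 = 0 := by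
  unfold dg ph
  split_ifs
  · simp
  · rename_i h1 h2
    exact absurd rfl h2.2
  · rfl

lemma dg_z2 (c : Fin 4) (n : Fin 3 → ZMod 2) (ε : ZMod 2) (v : V2) : dg c n ε 0 v = 0 := by
  unfold dg ph
  split_ifs
  · simp
  · rename_i h1 h2
    exact absurd rfl h2.1
  · rfl

/-- the product of the symbols outside the diagonal -/
noncomputable def OT (μ : Pr z y → Mr k) : ℝ :=
  ∏ p : Pr z y, ∏ q : Pr z y, if (decide (q ≠ p) &&
    decide (∑ a, om2 ((μ q).1 a) ((μ p).2 a) ≠ 0)) = true then Jr ((q : ℕ) : ℤ) p else 1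

/-- the sign at a prime -/
noncomputable def sgn (cls : J → Fin 4) (π : Pat) (p : ℕ) (o : Option J) (m : Mr k) : ℝ :=
  o.elim 1 fun j => ∏ a, (sn (dg (cls j) (zb π) (m4 p) (m.1 a) (m.2 a)) : ℝ)

lemma prod_all (cls : J → Fin 4) (ξ : Pr z y → Option J) (η : Pr z y → Pat)
    (v e : Pr z y → VM k) (hv : ∀ p i, Lo cls (ξ p) (v p i)) (he : ∀ p i, Lo cls (ξ p) (e p i)) :
    ∏ i, ∏ p ∈ (Mt (mc cls (Dl ξ))).primeFactors, ∏ q ∈ (Mt (mc cls (Dl ξ))).primeFactors,
      (sy (mc cls (Dl ξ)) (pt η) p q (dV (dN fun p => v p i) q) (dV (dN fun p => e p i) p) : ℝ) =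
      (∏ p : Pr z y, sgn cls (η p) p (ξ p) (v p, e p)) * OT fun p => (v p, e p) := by
  have v0 : ∀ p i, ¬ (ξ p).isSome = true → v p i = 0 := by
    intro p i hp
    have h := hv p i
    cases hx : ξ p with
    | none => rw [hx] at h; exact h
    | some j => rw [hx] at hp; exact absurd rfl hp
  have e0 : ∀ p i, ¬ (ξ p).isSome = true → e p i = 0 := by
    intro p i hp
    have h := he p i
    cases hx : ξ p with
    | none => rw [hx] at h; exact h
    | some j => rw [hx] at hp; exact absurd rfl hp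
  -- the factor
  set F : Pr z y → Pr z y → Fin k → ℝ := fun p q i =>
    if q = p then (ξ p).elim 1 fun j => (sn (dg (cls j) (zb (η p)) (m4 p) (v p i) (e p i)) : ℝ)
    else if om2 (v q i) (e p i) = 0 then 1 else Jr ((q : ℕ) : ℤ) p with hF
  have h1 : ∀ i, ∏ p ∈ (Mt (mc cls (Dl ξ))).primeFactors,
      ∏ q ∈ (Mt (mc cls (Dl ξ))).primeFactors,
      (sy (mc cls (Dl ξ)) (pt η) p q (dV (dN fun p => v p i) q) (dV (dN fun p => e p i) p) : ℝ) =
      ∏ p : Pr z y, ∏ q : Pr z y, F p q i := by
    intro i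
    rw [Mt_Dl, prod_pf (fun p => (ξ p).isSome) fun p =>
      ∏ q ∈ (nb fun p => (ξ p).isSome).primeFactors, (sy (mc cls (Dl ξ)) (pt η) p q
        (dV (dN fun p => v p i) q) (dV (dN fun p => e p i) p) : ℝ)]
    refine Finset.prod_congr rfl fun p _ => ?_
    rw [prod_pf (fun p => (ξ p).isSome) fun q => (sy (mc cls (Dl ξ)) (pt η) p q
        (dV (dN fun p => v p i) q) (dV (dN fun p => e p i) p) : ℝ)]
    by_cases hp : (ξ p).isSome = true
    · rw [if_pos hp]
      refine Finset.prod_congr rfl fun q _ => ?_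
      beta_reduce
      rw [dV_dN, dV_dN]
      obtain ⟨j, hj⟩ := Option.isSome_iff_exists.1 hp
      by_cases hq : (ξ q).isSome = true
      · rw [if_pos hq]
        simp only [hF]
        unfold Pool.Agent.L7h19.FD.sy
        by_cases hqp : q = p
        · subst hqp
          rw [if_pos rfl, if_pos rfl, cl_Dl cls ξ q j hj, nb_pt, hj]
          rfl
        · rw [if_neg hqp, if_neg (fun h => hqp (Subtype.ext h))]
          by_cases hom : om2 (v q i) (e p i) = 0
          · rw [if_pos hom, if_pos hom]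
            norm_num
          · rw [if_neg hom, if_neg hom]
            rfl
      · rw [if_neg hq]
        simp only [hF]
        have hqp : ¬ q = p := fun h => hq (by rw [h]; exact hp)
        rw [if_neg hqp, v0 q i hq, om2_z2, if_pos rfl]
    · rw [if_neg hp]
      symm
      refine Finset.prod_eq_one fun q _ => ?_
      simp only [hF]
      by_cases hqp : q = p
      · rw [if_pos hqp]
        cases hx : ξ p with
        | none => rfl
        | some j => rw [hx] at hp; exact absurd rfl hp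
      · rw [if_neg hqp, e0 p i hp, om2_z1, if_pos rfl]
  rw [Finset.prod_congr rfl fun i _ => h1 i, Finset.prod_comm]
  have hd : ∀ F : Pr z y → ℝ, ∏ p : Pr z y, F p =
      ∏ p : Pr z y, ∏ q : Pr z y, if q = p then F p else 1 := by
    intro F
    refine Finset.prod_congr rfl fun p _ => ?_
    rw [Finset.prod_ite_eq' univ p fun _ => F p]
    simp
  unfold OT
  rw [hd (fun p => sgn cls (η p) p (ξ p) (v p, e p)), ← Finset.prod_mul_distrib]
  refine Finset.prod_congr rfl fun p _ => ?_
  rw [← Finset.prod_mul_distrib, Finset.prod_comm]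
  refine Finset.prod_congr rfl fun q _ => ?_
  beta_reduce
  by_cases hqp : q = p
  · subst hqp
    simp only [hF, if_true, ne_eq, not_true_eq_false, decide_false, Bool.false_and,
      Bool.false_eq_true, if_false, mul_one]
    unfold sgn
    cases ξ q with
    | none => simp
    | some j => rfl
  · simp only [hF, hqp, if_false, one_mul, ne_eq, not_false_eq_true, decide_true, Bool.true_and,
      decide_eq_true_eq]
    exact chi' _ (Jr_sq hqp) fun i => om2 (v q i) (e p i)

/-- the condition on the marks -/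
def CT (μ : Pr z y → Mr k) : Prop := ∀ w : Fin k → ZMod 2, w ≠ 0 →
  ∀ c : Fin 3, ∃ P : Pr z y, ¬ Ln c.castSucc (∑ a, w a • (μ P).1 a)

instance (μ : Pr z y → Mr k) : Decidable (CT μ) := by
  unfold CT
  infer_instance

lemma Cd_iff (cls : J → Fin 4) (ξ : Pr z y → Option J) (v e : Pr z y → VM k)
    (hv : ∀ p i, Lo cls (ξ p) (v p i)) :
    Pool.Agent.L7h19.FD.Cd k (mc cls (Dl ξ)) (fun i => dN fun p => v p i) ↔
      CT fun p => (v p, e p) := by
  unfold Pool.Agent.L7h19.FD.Cd CT
  refine forall_congr' fun w => imp_congr Iff.rfl (forall_congr' fun c => ?_)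
  have key : ∀ P : Pr z y, ∑ i, w i • dV (dN fun p => v p i) (P : ℕ) = ∑ a, w a • v P a :=
    fun P => Finset.sum_congr rfl fun i _ => by rw [dV_dN]
  constructor
  · rintro ⟨p, hp, h1⟩
    rw [Mt_Dl, nb_pf] at hp
    unfold Ts at hp
    rw [Finset.mem_map] at hp
    obtain ⟨P, hP, hPp⟩ := hp
    have h4 : (P : ℕ) = p := hPp
    rw [← h4, key] at h1
    exact ⟨P, h1⟩
  · rintro ⟨P, hP⟩
    refine ⟨P, ?_, by rw [key]; exact hP⟩
    rw [Mt_Dl, nb_pf]
    refine (mem_Ts _ P).2 ?_
    by_contra h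
    apply hP
    have h5 : ∀ a, v P a = 0 := by
      intro a
      have h6 := hv P a
      cases hx : ξ P with
      | none => rw [hx] at h6; exact h6
      | some j => rw [hx] at h; exact absurd rfl h
    have h7 : ∑ a, w a • v P a = 0 := Finset.sum_eq_zero fun a _ => by rw [h5, smul_zero]
    show Ln _ (∑ a, w a • v P a)
    rw [h7]
    exact Ln_zero _

/-- the weight of the class -/
noncomputable def wj (cls : J → Fin 4) (k : ℕ) (o : Option J) : ℝ :=
  o.elim 1 fun j => if cls j = 3 then 1 / 4 ^ k else 1 / 2 ^ k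

/-- the support of the marks -/
def SU (cls : J → Fin 4) (ξ : Pr z y → Option J) (μ : Pr z y → Mr k) : Prop :=
  (∀ p i, Lo cls (ξ p) ((μ p).1 i)) ∧ ∀ p i, Lo cls (ξ p) ((μ p).2 i)

instance (cls : J → Fin 4) (ξ : Pr z y → Option J) (μ : Pr z y → Mr k) :
    Decidable (SU cls ξ μ) := by
  unfold SU
  infer_instance

lemma denom (cls : J → Fin 4) (ξ : Pr z y → Option J) (k : ℕ) :
    ((2:ℝ) ^ (k * ((mc cls (Dl ξ)) 0 * (mc cls (Dl ξ)) 1 * (mc cls (Dl ξ)) 2).primeFactors.card) *
      4 ^ (k * ((mc cls (Dl ξ)) 3).primeFactors.card))⁻¹ = ∏ p : Pr z y, wj cls k (ξ p) := by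
  have h1 : ((mc cls (Dl ξ)) 0 * (mc cls (Dl ξ)) 1 * (mc cls (Dl ξ)) 2).primeFactors =
      (nb fun p => tm (fun j => decide (cls j ≠ 3)) (ξ p)).primeFactors := by
    rw [mc_Dl, mc_Dl, mc_Dl, Nat.primeFactors_mul (mul_ne_zero (nb_ne_zero _) (nb_ne_zero _))
      (nb_ne_zero _), Nat.primeFactors_mul (nb_ne_zero _) (nb_ne_zero _), nb_pf, nb_pf, nb_pf,
      nb_pf]
    unfold Ts
    rw [← Finset.map_union, ← Finset.filter_or, ← Finset.map_union, ← Finset.filter_or]
    congr 1
    refine Finset.filter_congr fun p _ => ?_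
    beta_reduce
    cases h : ξ p with
    | none => simp [tm]
    | some j =>
      simp only [tm, Option.elim, decide_eq_true_eq]
      generalize cls j = c
      revert c
      decide
  rw [h1, mc_Dl, mul_inv]
  have h3 : ∀ (g : Pr z y → Bool) (b : ℝ), (b ^ (k * (nb g).primeFactors.card))⁻¹ =
      ∏ p : Pr z y, if g p = true then (1 / b ^ k : ℝ) else 1 := by
    intro g b
    rw [← prod_pf g fun _ => (1 / b ^ k : ℝ), Finset.prod_const, pow_mul, ← inv_pow]
    norm_num
  rw [h3, h3, ← Finset.prod_mul_distrib]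
  refine Finset.prod_congr rfl fun p _ => ?_
  unfold wj
  cases h : ξ p with
  | none => simp [tm]
  | some j =>
    by_cases hc : cls j = 3
    · simp [tm, hc]
    · simp [tm, hc]

lemma TK_eq (cls : J → Fin 4) (ξ : Pr z y → Option J) (η : Pr z y → Pat) :
    TK k (mc cls (Dl ξ)) (pt η) =
      (∏ p : Pr z y, wj cls k (ξ p)) *
        ∑ μ : Pr z y → Mr k, if SU cls ξ μ ∧ CT μ then
          (∏ p : Pr z y, sgn cls (η p) p (ξ p) (μ p)) * OT μ else 0 := by
  unfold TK
  rw [div_eq_mul_inv, denom, mul_comm]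
  congr 1
  rw [Finset.sum_filter, sum_Kd]
  have h2 : ∀ v : Pr z y → VM k, (if ∀ p i, Lo cls (ξ p) (v p i) then
      (if Pool.Agent.L7h19.FD.Cd k (mc cls (Dl ξ)) (fun i => dN fun p => v p i) then
        ∑ e ∈ Fintype.piFinset (fun _ : Fin k => Kd (mc cls (Dl ξ))),
          ∏ i, ∏ p ∈ (Mt (mc cls (Dl ξ))).primeFactors,
            ∏ q ∈ (Mt (mc cls (Dl ξ))).primeFactors,
              (sy (mc cls (Dl ξ)) (pt η) p q (dV (dN fun p => v p i) q) (dV (e i) p) : ℝ)
        else 0) else 0) =
      ∑ x : Pr z y → VM k, if SU cls ξ (fun p => (v p, x p)) ∧ CT (fun p => (v p, x p)) then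
        (∏ p : Pr z y, sgn cls (η p) p (ξ p) (v p, x p)) * OT (fun p => (v p, x p)) else 0 := by
    intro v
    by_cases hv : ∀ p i, Lo cls (ξ p) (v p i)
    · rw [if_pos hv]
      by_cases hC : CT (fun p => (v p, v p))
      · rw [if_pos ((Cd_iff cls ξ v v hv).2 hC), sum_Kd]
        refine Finset.sum_congr rfl fun x _ => ?_
        have hC' : CT (fun p => (v p, x p)) := hC
        by_cases hx : ∀ p i, Lo cls (ξ p) (x p i)
        · rw [if_pos hx, if_pos ⟨⟨hv, hx⟩, hC'⟩]
          exact prod_all cls ξ η v x hv hx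
        · rw [if_neg hx, if_neg fun h => hx h.1.2]
      · rw [if_neg fun h => hC ((Cd_iff cls ξ v v hv).1 h)]
        symm
        exact Finset.sum_eq_zero fun x _ => if_neg fun h => hC h.2
    · rw [if_neg hv]
      symm
      exact Finset.sum_eq_zero fun x _ => if_neg fun h => hv h.1.1
  rw [Finset.sum_congr rfl fun v _ => h2 v,
    sum_arr (fun v x : Pr z y → VM k => if SU cls ξ (fun p => (v p, x p)) ∧
      CT (fun p => (v p, x p)) then
        (∏ p : Pr z y, sgn cls (η p) p (ξ p) (v p, x p)) * OT (fun p => (v p, x p)) else 0)]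

/-- the symbols -/
noncomputable def GT (μ : Pr z y → Mr k) : ℝ := if CT μ then OT μ else 0

/-- the support at a prime -/
def So (cls : J → Fin 4) (o : Option J) (m : Mr k) : Prop :=
  (∀ i, Lo cls o (m.1 i)) ∧ ∀ i, Lo cls o (m.2 i)

instance (cls : J → Fin 4) (o : Option J) (m : Mr k) : Decidable (So cls o m) := by
  unfold So
  infer_instance

lemma SU_iff (cls : J → Fin 4) (ξ : Pr z y → Option J) (μ : Pr z y → Mr k) :
    SU cls ξ μ ↔ ∀ p, So cls (ξ p) (μ p) :=
  ⟨fun h p => ⟨h.1 p, h.2 p⟩, fun h => ⟨fun p => (h p).1, fun p => (h p).2⟩⟩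

/-- the weight of a prime with the pattern `π`, the class `o` and the marks `m` -/
noncomputable def tT (cls : J → Fin 4) (W : J → Pat → ℕ → ℝ) (π : Pat) (p : ℕ)
    (o : Option J) (m : Mr k) : ℝ :=
  if (∀ i, π i = true → o.isSome = true) ∧ So cls o m then
    wj cls k o * (o.elim 1 fun j => W j π p) * sgn cls π p o m else 0

/-- the weights with the marks -/
noncomputable def TT (cls : J → Fin 4) (W : J → Pat → ℕ → ℝ) (p : ℕ)
    (o : Option J) (m : Mr k) : ℝ := ∑ π : Pat, tT cls W π p o m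

lemma lhsT (cls : J → Fin 4) (W : J → Pat → ℕ → ℝ) (ξ : Pr z y → Option J) :
    avE W (fun E => TK k (mc cls (Dl ξ)) E) (Dl ξ) =
      ∑ μ : Pr z y → Mr k, (∏ p : Pr z y, TT cls W p (ξ p) (μ p)) * GT μ := by
  unfold avE
  rw [Q0_Dl, sum_pw3]
  have h1 : ∀ η : Pr z y → Pat, (if ∀ p i, η p i = true → (ξ p).isSome = true then
      TK k (mc cls (Dl ξ)) (pt η) * WE W (Dl ξ) (pt η) else 0) =
      ∑ μ : Pr z y → Mr k, (∏ p : Pr z y, tT cls W (η p) p (ξ p) (μ p)) * GT μ := by
    intro η
    by_cases hη : ∀ p i, η p i = true → (ξ p).isSome = true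
    · rw [if_pos hη, TK_eq, WE_Dl, Finset.mul_sum, Finset.sum_mul]
      refine Finset.sum_congr rfl fun μ _ => ?_
      by_cases hC : SU cls ξ μ
      · have hC' := (SU_iff cls ξ μ).1 hC
        have e1 : ∀ p : Pr z y, tT cls W (η p) p (ξ p) (μ p) =
            wj cls k (ξ p) * ((ξ p).elim 1 fun j => W j (η p) p) * sgn cls (η p) p (ξ p) (μ p) :=
          fun p => if_pos ⟨hη p, hC' p⟩
        rw [Finset.prod_congr rfl fun p _ => e1 p, Finset.prod_mul_distrib,
          Finset.prod_mul_distrib]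
        unfold GT
        by_cases hS : CT μ
        · rw [if_pos ⟨hC, hS⟩, if_pos hS]
          ring
        · rw [if_neg fun h => hS h.2, if_neg hS]
          ring
      · rw [if_neg fun h => hC h.1, mul_zero, zero_mul]
        rw [SU_iff] at hC
        simp only [not_forall] at hC
        obtain ⟨p, hp⟩ := hC
        rw [Finset.prod_eq_zero (mem_univ p) (if_neg fun h => hp h.2), zero_mul]
    · rw [if_neg hη]
      symm
      refine Finset.sum_eq_zero fun μ _ => ?_
      simp only [not_forall] at hη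
      obtain ⟨p, i, hp1, hp2⟩ := hη
      rw [Finset.prod_eq_zero (mem_univ p) (if_neg fun h => hp2 (h.1 i hp1)), zero_mul]
  rw [Finset.sum_congr rfl fun η _ => h1 η, Finset.sum_comm]
  refine Finset.sum_congr rfl fun μ _ => ?_
  rw [← Finset.sum_mul]
  congr 1
  unfold TT
  rw [Finset.prod_univ_sum, Fintype.piFinset_univ]

lemma om2_line : ∀ c : Fin 4, c ≠ 3 → ∀ v e : V2, Ln c v → Ln c e → om2 v e = 0 := by
  intro c hc v e hv he
  have hd : ∀ c : Fin 4, c ≠ 3 → om2 (dc c) (dc c) = 0 := by decide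
  rcases hv with h | rfl | rfl
  · exact absurd h hc
  · exact om2_z2 _
  · rcases he with h | rfl | rfl
    · exact absurd h hc
    · exact om2_z1 _
    · exact hd c hc

lemma sn_prod (f : Fin k → ZMod 2) : ∏ a, (sn (f a) : ℝ) = (sn (∑ a, f a) : ℝ) := by
  have h1 : ∀ a b : ZMod 2, (sn (a + b) : ℤ) = sn a * sn b := by decide
  have h2 : ∀ s : Finset (Fin k), ∏ a ∈ s, (sn (f a) : ℝ) = (sn (∑ a ∈ s, f a) : ℝ) := by
    intro s
    induction s using Finset.induction_on with
    | empty => simp [sn]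
    | insert a s ha ih =>
      rw [Finset.prod_insert ha, Finset.sum_insert ha, h1, ih]
      push_cast
      ring
  exact h2 univ

lemma TT_some (cls : J → Fin 4) (W : J → Pat → ℕ → ℝ) (hW : WSym W cls) (p : ℕ)
    (j : J) (v e : VM k) :
    TT cls W p (some j) (v, e) = if Al (cls j) k v e then
      (if cls j = 3 then (1 / 4 ^ k : ℝ) else 1 / 2 ^ k) * ∑ π : Pat,
        (∏ a, (sn (dg (cls j) (zb π) (m4 p) (v a) (e a)) : ℝ)) * W j π p else 0 := by
  unfold TT
  by_cases hS : So cls (some j) (v, e)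
  · have e1 : ∀ π : Pat, tT cls W π p (some j) (v, e) =
        (if cls j = 3 then (1 / 4 ^ k : ℝ) else 1 / 2 ^ k) *
          ((∏ a, (sn (dg (cls j) (zb π) (m4 p) (v a) (e a)) : ℝ)) * W j π p) := by
      intro π
      unfold tT
      rw [if_pos ⟨fun _ _ => rfl, hS⟩]
      simp only [wj, sgn, Option.elim]
      ring
    rw [Finset.sum_congr rfl fun π _ => e1 π, ← Finset.mul_sum]
    by_cases hom : ∑ a, om2 (v a) (e a) = 0
    · have hAl : Al (cls j) k v e := ⟨hS.1, hS.2, hom⟩
      rw [if_pos hAl]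
    · have hAl : ¬ Al (cls j) k v e := fun h => hom h.2.2
      rw [if_neg hAl]
      have hc3 : cls j = 3 := by
        by_contra hc
        exact hom (Finset.sum_eq_zero fun a _ => om2_line _ hc _ _ (hS.1 a) (hS.2 a))
      have hom1 : ∑ a, om2 (v a) (e a) = 1 := z2 _ hom
      have hneg : ∀ π : Pat, (∏ a, (sn (dg (cls j) (zb fun i => !(π i)) (m4 p) (v a) (e a)) : ℝ)) *
          W j (fun i => !(π i)) p =
          -((∏ a, (sn (dg (cls j) (zb π) (m4 p) (v a) (e a)) : ℝ)) * W j π p) := by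
        intro π
        have e2 : ∀ x f : V2, dg (cls j) (zb fun i => !(π i)) (m4 p) x f =
            dg (cls j) (zb π) (m4 p) x f + om2 x f := by
          intro x f
          unfold dg
          rw [if_pos hc3, if_pos hc3, zb_not, ph_add]
        rw [hW j hc3 π p, sn_prod, sn_prod]
        have e3 : ∑ a, dg (cls j) (zb fun i => !(π i)) (m4 p) (v a) (e a) =
            ∑ a, dg (cls j) (zb π) (m4 p) (v a) (e a) + 1 := by
          rw [← hom1, ← Finset.sum_add_distrib]
          exact Finset.sum_congr rfl fun a _ => e2 _ _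
        rw [e3, sn_add]
        push_cast
        ring
      let e5 : Pat ≃ Pat :=
        { toFun := fun π i => !(π i)
          invFun := fun π i => !(π i)
          left_inv := fun π => funext fun i => by simp
          right_inv := fun π => funext fun i => by simp }
      have h5 := Equiv.sum_comp e5
        (fun π : Pat => (∏ a, (sn (dg (cls j) (zb π) (m4 p) (v a) (e a)) : ℝ)) * W j π p)
      have h6 : ∑ π : Pat, (∏ a, (sn (dg (cls j) (zb (e5 π)) (m4 p) (v a) (e a)) : ℝ)) *
          W j (e5 π) p =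
          -∑ π : Pat, (∏ a, (sn (dg (cls j) (zb π) (m4 p) (v a) (e a)) : ℝ)) * W j π p := by
        rw [← Finset.sum_neg_distrib]
        exact Finset.sum_congr rfl fun π _ => hneg π
      rw [h6] at h5
      have h7 : ∑ π : Pat, (∏ a, (sn (dg (cls j) (zb π) (m4 p) (v a) (e a)) : ℝ)) * W j π p = 0 := by
        linarith
      rw [h7, mul_zero]
  · rw [if_neg fun h => hS ⟨h.1, h.2.1⟩]
    exact Finset.sum_eq_zero fun π _ => if_neg fun h => hS h.2

lemma TT_none (cls : J → Fin 4) (W : J → Pat → ℕ → ℝ) (p : ℕ) (m : Mr k) :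
    TT cls W p none m = if m = (0, 0) then 1 else 0 := by
  unfold TT
  rw [Finset.sum_eq_single (fun _ => false)]
  · unfold tT
    by_cases hm : m = (0, 0)
    · rw [if_pos hm, hm, if_pos ⟨fun i h => absurd h Bool.false_ne_true, fun i => rfl, fun i => rfl⟩]
      simp [wj, sgn]
    · rw [if_neg hm, if_neg]
      rintro ⟨-, h1, h2⟩
      apply hm
      exact Prod.ext (funext fun i => h1 i) (funext fun i => h2 i)
  · intro π _ hπ
    refine if_neg fun h => hπ ?_
    funext i
    by_contra h3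
    have h4 : π i = true := by
      cases h5 : π i
      · exact absurd h5 h3
      · rfl
    exact absurd (h.1 i h4) Bool.false_ne_true
  · intro h
    exact absurd (mem_univ _) h

/-! ### The right side -/

/-- the class and the marks -/
def fk (cls : J → Fin 4) (x : Option (LabT cls k)) : Option J × Mr k :=
  (x.map fun i => i.1.1, x.elim (0, 0) fun i => i.1.2)

/-- the local weights -/
noncomputable def WT (cls : J → Fin 4) (W : J → Pat → ℕ → ℝ) (p : ℕ)
    (x : Option (LabT cls k)) : ℝ := x.elim 1 fun i => bT W cls k i p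

lemma fiber (cls : J → Fin 4) (W : J → Pat → ℕ → ℝ) (hW : WSym W cls) (p : ℕ)
    (x : Option J × Mr k) :
    ∑ u ∈ univ.filter (fun u : Option (LabT cls k) => fk cls u = x), WT cls W p u =
      TT cls W p x.1 x.2 := by
  obtain ⟨x, v, w⟩ := x
  rw [Finset.sum_filter, Fintype.sum_option]
  cases x with
  | none =>
    have h1 : ∑ i : LabT cls k, (if fk cls (some i) = ((none : Option J), (v, w)) then
        WT cls W p (some i) else 0) = 0 := by
      refine Finset.sum_eq_zero fun i _ => if_neg ?_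
      simp [fk]
    rw [h1, add_zero, TT_none]
    simp only [fk, Option.map_none, Option.elim, Prod.mk.injEq, true_and, WT]
    refine if_congr ?_ rfl rfl
    exact ⟨fun h => ⟨h.1.symm, h.2.symm⟩, fun h => ⟨h.1.symm, h.2.symm⟩⟩
  | some j =>
    have h0 : (if fk cls (none : Option (LabT cls k)) = (some j, (v, w)) then
        WT cls W p (none : Option (LabT cls k)) else 0) = 0 := by
      rw [if_neg]
      simp [fk]
    rw [h0, zero_add, TT_some cls W hW]
    set g : J × (VM k × VM k) → ℝ := fun i =>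
      if (some i.1, i.2) = ((some j : Option J), (v, w)) then
        (if cls i.1 = 3 then (1 / 4 ^ k : ℝ) else 1 / 2 ^ k) * ∑ π : Pat,
          (∏ a, (sn (dg (cls i.1) (zb π) (m4 p) (i.2.1 a) (i.2.2 a)) : ℝ)) * W i.1 π p
        else 0 with hg
    have h1 : ∑ i : LabT cls k, (if fk cls (some i) = ((some j : Option J), (v, w)) then
        WT cls W p (some i) else 0) = ∑ i : LabT cls k, g i.1 :=
      Finset.sum_congr rfl fun i _ => rfl
    have h2 : ∑ i ∈ univ.filter (fun i : J × (VM k × VM k) =>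
        Al (cls i.1) k i.2.1 i.2.2), g i = ∑ i : LabT cls k, g i.1 :=
      Finset.sum_subtype _ (fun i => by simp) g
    rw [h1, ← h2, Finset.sum_filter, Finset.sum_eq_single ((j, (v, w)) : J × (VM k × VM k))]
    · simp only [hg, if_true]
    · rintro ⟨j', m⟩ _ hne
      simp only [hg]
      rw [if_neg (fun h' : (some j', m) = ((some j : Option J), (v, w)) => hne (by
        have h3 := Option.some.inj (Prod.mk.inj h').1
        rw [h3, (Prod.mk.inj h').2])), ite_self]
    · intro h
      exact absurd (mem_univ _) h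

lemma Sym_eq (cls : J → Fin 4) (l : Pr z y → Option (LabT cls k)) :
    Pool.Agent.W262.RK.Sym (LT cls k) (fun _ => 1) (Dl l) = OT fun p => (fk cls (l p)).2 := by
  rw [Sym_Dl]
  have h1 : ∏ p : Pr z y, ((l p).elim 1 fun _ => Jr 1 p) = (1 : ℝ) := by
    refine Finset.prod_eq_one fun p _ => ?_
    cases l p with
    | none => rfl
    | some i => exact Jr_one_left _
  rw [h1, mul_one]
  unfold OT
  refine Finset.prod_congr rfl fun p _ => ?_
  refine Finset.prod_congr rfl fun q _ => ?_
  beta_reduce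
  cases hq : l q with
  | none =>
    have e : Pool.Agent.W762.RK2.lk (LT cls k) (none : Option (LabT cls k)) (l p) = false := rfl
    rw [e]
    simp [fk, om2_z2]
  | some i =>
    cases hp : l p with
    | none =>
      have e : Pool.Agent.W762.RK2.lk (LT cls k) (some i) (none : Option (LabT cls k)) = false := rfl
      rw [e]
      simp [fk, om2_z1]
    | some m =>
      have e : Pool.Agent.W762.RK2.lk (LT cls k) (some i) (some m) = LT cls k i m := rfl
      rw [e]
      simp only [fk, Option.elim, Pool.Agent.L7h19.FD.LT, decide_eq_true_eq, Bool.and_eq_true]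
      by_cases hd : ∑ a, om2 (i.1.2.1 a) (m.1.2.2 a) = 0
      · simp [hd]
      · have hqp : q ≠ p := by
          intro h
          rw [h, hp] at hq
          rw [Option.some.inj hq] at hd
          exact hd i.2.2.2
        simp [hd, hqp]

lemma rhs_term (cls : J → Fin 4) (W : J → Pat → ℕ → ℝ) (l : Pr z y → Option (LabT cls k)) :
    (if QT cls k (univ.filter (fun i => Dl l i ≠ 1)) then
      (∏ i : LabT cls k, gm (bT W cls k i) (Dl l i)) *
        Pool.Agent.W262.RK.Sym (LT cls k) (fun _ => 1) (Dl l) else 0) =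
      (∏ p : Pr z y, WT cls W p (l p)) * GT fun p => (fk cls (l p)).2 := by
  have hn : ∀ i : LabT cls k, Dl l i ≠ 1 ↔ ∃ p, l p = some i := by
    intro i
    unfold Dl
    rw [nb_ne_one]
    simp only [decide_eq_true_eq]
  have hm : ∀ i : LabT cls k, i ∈ univ.filter (fun i => Dl l i ≠ 1) ↔ ∃ p, l p = some i := by
    intro i
    rw [mem_filter, ← hn]
    exact ⟨fun h => h.2, fun h => ⟨mem_univ _, h⟩⟩
  have hc : QT cls k (univ.filter (fun i => Dl l i ≠ 1)) ↔ CT fun p => (fk cls (l p)).2 := by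
    unfold QT CT
    refine forall_congr' fun w => imp_congr Iff.rfl (forall_congr' fun c => ?_)
    constructor
    · rintro ⟨i, h1, h2⟩
      obtain ⟨P, hP⟩ := (hm i).1 h1
      refine ⟨P, ?_⟩
      beta_reduce
      rw [hP]
      exact h2
    · rintro ⟨P, hP⟩
      beta_reduce at hP
      cases hx : l P with
      | none =>
        exfalso
        rw [hx] at hP
        apply hP
        have h7 : ∑ a, w a • (fk cls (none : Option (LabT cls k))).2.1 a = 0 :=
          Finset.sum_eq_zero fun a _ => smul_zero _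
        rw [h7]
        exact Ln_zero _
      | some i =>
        rw [hx] at hP
        exact ⟨i, (hm i).2 ⟨P, hx⟩, hP⟩
  rw [Pool.Agent.L7h19.RP.prod_gm (fun i : LabT cls k => bT W cls k i) l, Sym_eq]
  unfold GT
  by_cases h : CT fun p => (fk cls (l p)).2
  · rw [if_pos (hc.2 h), if_pos h]
    rfl
  · rw [if_neg fun h' => h (hc.1 h'), if_neg h, mul_zero]

/-- **S_EXD** -/
theorem s_EXD : S_EXD := by
  classical
  intro J _ _ cls W k z y _ hW
  rw [sum_Tup fun s => avE W (fun E => TK k (mc cls s) E) s,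
    Finset.sum_filter,
    sum_Tup fun d : LabT cls k → ℕ =>
      if QT cls k (univ.filter (fun i => d i ≠ 1)) then
        (∏ i : LabT cls k, gm (bT W cls k i) (d i)) *
          Pool.Agent.W262.RK.Sym (LT cls k) (fun _ => 1) d else 0]
  rw [Finset.sum_congr rfl fun ξ _ => lhsT cls W ξ,
    Finset.sum_congr rfl fun l _ => rhs_term cls W l]
  rw [← Finset.sum_fiberwise univ (fun (l : Pr z y → Option (LabT cls k)) => fun p => fk cls (l p))]
  have h1 : ∀ ζ : Pr z y → Option J × Mr k,
      ∑ l ∈ univ.filter (fun l : Pr z y → Option (LabT cls k) => (fun p => fk cls (l p)) = ζ),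
        (∏ p : Pr z y, WT cls W p (l p)) * (GT fun p => (fk cls (l p)).2) =
      (∏ p : Pr z y, TT cls W p (ζ p).1 (ζ p).2) * GT fun p => (ζ p).2 := by
    intro ζ
    have h2 : (univ.filter fun l : Pr z y → Option (LabT cls k) => (fun p => fk cls (l p)) = ζ) =
        Fintype.piFinset (fun p => univ.filter (fun x : Option (LabT cls k) => fk cls x = ζ p)) := by
      ext l
      simp only [Finset.mem_filter, Finset.mem_univ, true_and, Fintype.mem_piFinset, funext_iff]
    rw [Finset.prod_congr rfl fun (p : Pr z y) _ => (fiber cls W hW p (ζ p)).symm,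
      Finset.prod_univ_sum, Finset.sum_mul, h2]
    refine Finset.sum_congr rfl fun l hl => ?_
    rw [Fintype.mem_piFinset] at hl
    have h3 : ∀ p, fk cls (l p) = ζ p := fun p => (Finset.mem_filter.1 (hl p)).2
    simp only [h3]
  rw [Finset.sum_congr rfl fun ζ _ => h1 ζ,
    sum_arr (fun (ξ : Pr z y → Option J) (μ : Pr z y → Mr k) =>
      (∏ p : Pr z y, TT cls W p (ξ p) (μ p)) * GT μ)]

end Pool.Agent.L7h56.FD
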